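import Mathlib
import Pool.Agent.Lib.P26dde3.FourC

/-!
# Self-intersection of Lagrangian classes on fourfolds

`A` is a commutative real algebra, `deg : A → ℝ` a linear form, `V` a finite-dimensional subspace of `A` with a
nondegenerate symmetric bilinear form `B`, `N` a Lorentzian subspace of `V`.
-/

namespace Pool.Agent.Results.MP_26dde3_ag.Fourfolds

theorem result {A : Type*} [CommRing A] [Algebra ℝ A] (deg : A →ₗ[ℝ] ℝ) (V : Submodule ℝ A)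
    [FiniteDimensional ℝ V] (B : LinearMap.BilinForm ℝ V) (hs : B.IsSymm) (hn : B.Nondegenerate)
    (c : ℝ) (hc : 0 < c) (hF : ∀ v : V, deg ((v : A) ^ 4) = c * B v v ^ 2)
    (N : Submodule ℝ V) (h : V) (hhN : h ∈ N) (hh : 0 < B h h)
    (hLor : ∀ x ∈ N, B h x = 0 → x ≠ 0 → B x x < 0)
    (W : Submodule ℝ A) (hW : V ^ 2 ≤ W)
    (hHR : ∀ t ∈ W, (∀ w ∈ V ^ 2, deg (t * w) = 0) →
      0 ≤ deg (t * t) ∧ (deg (t * t) = 0 → t = 0))
    (y : A) (hyW : y ∈ W) (hT : ∀ x : V, (∀ z ∈ N, B z x = 0) → y * x = 0)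
    (hpos : ∀ x ∈ N, 0 ≤ B x x → 0 ≤ deg (y * (x : A) ^ 2)) :
    0 ≤ deg (y * y) ∧
      (deg (y * y) = 0 → ∃ e ∈ N, B e e = 0 ∧ ∃ a : ℝ, 0 ≤ a ∧ y = a • (e : A) ^ 2) :=
  Pool.Agent.Lib.P26dde3.four hs hn deg hc hF N hhN hh hLor y hT hpos W hW hyW hHR

end Pool.Agent.Results.MP_26dde3_ag.Fourfolds
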