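import Mathlib
import Pool.Agent.Lib.P26dde3.Multi

/-!
# The self-intersection number of a class killed by the orthogonal complement of `h`

`A` is a commutative real algebra, `deg : A → ℝ` a linear form, `V` a finite-dimensional subspace of `A` with a
nondegenerate symmetric bilinear form `B`.
-/

namespace Pool.Agent.Results.MP_26dde3_ag.RankOne

open Finset Pool.Agent.Lib.P26dde3

theorem result {A : Type*} [CommRing A] [Algebra ℝ A] (deg : A →ₗ[ℝ] ℝ) (V : Submodule ℝ A)
    [FiniteDimensional ℝ V] (B : LinearMap.BilinForm ℝ V) (hs : B.IsSymm) (hn : B.Nondegenerate)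
    {ι : Type*} [Fintype ι] (u : ι → A) (k : ι → ℕ) (c : ι → ℝ) (hc : ∀ i, c i ≠ 0)
    (hd : ∀ i, ∀ v : V, deg (u i * u i * (v : A) ^ (2 * k i)) = c i * B v v ^ k i)
    (ho : ∀ i j, i ≠ j → ∀ v : V, deg (u i * u j * (v : A) ^ (k i + k j)) = 0)
    (h : V) (hq : B h h ≠ 0) (y t : A) (s : ι → A) (hsV : ∀ i, s i ∈ V ^ k i)
    (ht : ∀ i, ∀ w ∈ V ^ k i, deg (t * (u i * w)) = 0) (hy : y = ∑ i, u i * s i + t)
    (hT : ∀ x : V, B h x = 0 → y * x = 0) :
    deg (y * y) = ∑ i, ((∏ j ∈ range (k i), (2 * (j : ℝ) + 1)) *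
        ((Module.finrank ℝ V + k i - 1).choose (k i) : ℝ)) /
        (c i * B h h ^ k i * ∏ j ∈ range (k i), ((Module.finrank ℝ V : ℝ) + 2 * j)) *
        deg (y * (u i * (h : A) ^ k i)) ^ 2 + deg (t * t) ∧
      ((∀ i, 0 < c i) → 0 < B h h → 0 ≤ deg (t * t) →
        (∃ i, deg (y * (u i * (h : A) ^ k i)) ≠ 0) → 0 < deg (y * y)) := by
  set z : A := ∑ i, u i * s i with hz
  have hzy : ∀ i, ∀ w ∈ V ^ k i, deg (z * (u i * w)) = deg (y * (u i * w)) := by
    intro i w hw
    rw [hy, add_mul, map_add, ht i w hw, add_zero]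
  have hL : ∀ x : V, B h x = 0 → ∀ i m, m + 1 = k i → ∀ w ∈ V ^ m,
      deg (z * x * (u i * w)) = 0 := by
    intro x hx i m hm w hw
    have h1 : (x : A) * w ∈ V ^ k i := by
      rw [← hm, pow_succ']
      exact Submodule.mul_mem_mul x.2 hw
    have h2 := hzy i _ h1
    have h3 : y * (u i * ((x : A) * w)) = y * x * (u i * w) := by ring
    have h4 : z * (u i * ((x : A) * w)) = z * x * (u i * w) := by ring
    rw [h3, h4, hT x hx, zero_mul, map_zero] at h2
    exact h2
  have hm := multi hs hn deg u k c hc hd ho hq s hsV hz hL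
  have htz : deg (t * z) = 0 := by
    rw [hz, mul_sum, map_sum]
    exact sum_eq_zero fun i _ => ht i (s i) (hsV i)
  have hyy : deg (y * y) = deg (z * z) + deg (t * t) := by
    have h1 : y * y = z * z + 2 * (t * z) + t * t := by
      rw [hy]
      ring
    have h2 : (2 : A) * (t * z) = (2 : ℝ) • (t * z) := by
      rw [two_mul, two_smul]
    rw [h1, map_add, map_add, h2, map_smul, htz, smul_zero, add_zero]
  have hform : deg (y * y) = ∑ i, ((∏ j ∈ range (k i), (2 * (j : ℝ) + 1)) *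
        ((Module.finrank ℝ V + k i - 1).choose (k i) : ℝ)) /
        (c i * B h h ^ k i * ∏ j ∈ range (k i), ((Module.finrank ℝ V : ℝ) + 2 * j)) *
        deg (y * (u i * (h : A) ^ k i)) ^ 2 + deg (t * t) := by
    rw [hyy, hm]
    congr 1
    refine sum_congr rfl fun i _ => ?_
    rw [hzy i _ (Submodule.pow_mem_pow V h.2 (k i))]
    rfl
  refine ⟨hform, fun hc0 hq0 ht0 hex => ?_⟩
  have hh0 : h ≠ 0 := by
    rintro rfl
    exact hq (by simp)
  have : Nontrivial V := ⟨h, 0, hh0⟩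
  have hb : 1 ≤ Module.finrank ℝ V := Module.finrank_pos
  have hpos : ∀ i, 0 < ((∏ j ∈ range (k i), (2 * (j : ℝ) + 1)) *
        ((Module.finrank ℝ V + k i - 1).choose (k i) : ℝ)) /
        (c i * B h h ^ k i * ∏ j ∈ range (k i), ((Module.finrank ℝ V : ℝ) + 2 * j)) := by
    intro i
    have p1 := DD_pos (k i)
    have p2 := PB_pos hb (k i)
    have p3 : (0 : ℝ) < ((Module.finrank ℝ V + k i - 1).choose (k i) : ℝ) := by
      have : 0 < (Module.finrank ℝ V + k i - 1).choose (k i) := Nat.choose_pos (by omega)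
      exact_mod_cast this
    have p4 := hc0 i
    have p5 := pow_pos hq0 (k i)
    exact div_pos (mul_pos p1 p3) (mul_pos (mul_pos p4 p5) p2)
  rw [hform]
  refine add_pos_of_pos_of_nonneg ?_ ht0
  obtain ⟨i, hi⟩ := hex
  exact sum_pos' (fun j _ => mul_nonneg (hpos j).le (sq_nonneg _))
    ⟨i, mem_univ i, mul_pos (hpos i) (by positivity)⟩

end Pool.Agent.Results.MP_26dde3_ag.RankOne
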